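import Pool.Agent.H84.NT.Targets5
import Pool.Agent.H4.ND.Common

/-!
# Near ties are rare: final form
-/

open MeasureTheory ProbabilityTheory
open scoped ENNReal

namespace Pool.Agent.H4.NT

open Pool.Agent.H99.NS Pool.Agent.H22.LPP Pool.Agent.H95.INS Pool.Agent.H76.ND Pool.Agent.H95.ND
open Pool.Agent.H84.NT hiding lv two_lv
open Pool.Agent.H84.NT5

theorem near_mono {ω : Env} {o e : Site} {c c' : ℝ} {g : ℤ → ℤ} (h : Near ω o e c g)
    (hc : c ≤ c') : Near ω o e c' g := ⟨h.1, by have := h.2; linarith⟩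

theorem two_pow_ge_sq (n : ℕ) : (n : ℝ) ^ 2 / 2 ≤ 2 ^ n := by
  have h : ∀ n : ℕ, 4 ≤ n → (n : ℝ) ^ 2 ≤ 2 ^ n := by
    intro n hn
    induction n, hn using Nat.le_induction with
    | base => norm_num
    | succ m hm ih =>
      have e : (2 : ℝ) ^ (m + 1) = 2 * 2 ^ m := by ring
      rw [e]
      push_cast
      have : (4 : ℝ) ≤ m := by exact_mod_cast hm
      nlinarith
  rcases le_or_gt 4 n with hn | hn
  · have := h n hn
    have h2 : 0 ≤ (n : ℝ) ^ 2 := by positivity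
    linarith
  · interval_cases n <;> norm_num

theorem nat_le_two_pow (n : ℕ) : (n : ℝ) ≤ 2 ^ n := by
  exact_mod_cast n.lt_two_pow_self.le

/-- `64 ^ u ≤ exp (5 u)`. -/
theorem pow64_le (u : ℕ) : (64 : ℝ) ^ u ≤ Real.exp (5 * u) := by
  have h1 : (64 : ℝ) ≤ Real.exp 5 := by
    have h2 : (2.7 : ℝ) ≤ Real.exp 1 := by have := Real.exp_one_gt_d9; linarith
    have h3 : Real.exp 5 = Real.exp 1 ^ 5 := by rw [← Real.exp_nat_mul]; norm_num
    rw [h3]
    calc (64 : ℝ) ≤ 2.7 ^ 5 := by norm_num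
      _ ≤ Real.exp 1 ^ 5 := pow_le_pow_left₀ (by norm_num) h2 5
  calc (64 : ℝ) ^ u ≤ Real.exp 5 ^ u := pow_le_pow_left₀ (by norm_num) h1 u
    _ = Real.exp (5 * u) := by rw [← Real.exp_nat_mul]; congr 1; ring

theorem quarter_le (u : ℕ) : (1 / 4 : ℝ) ^ u ≤ Real.exp (-(u : ℝ)) := by
  have h1 : (1 / 4 : ℝ) ≤ Real.exp (-1) := by
    have h2 := Real.exp_one_lt_d9
    rw [Real.exp_neg, ← one_div]
    exact one_div_le_one_div_of_le (Real.exp_pos _) (by linarith)
  calc (1 / 4 : ℝ) ^ u ≤ Real.exp (-1) ^ u := pow_le_pow_left₀ (by norm_num) h1 u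
    _ = Real.exp (-(u : ℝ)) := by rw [← Real.exp_nat_mul]; congr 1; ring

theorem pf_NTF : T_NTF := by
  intro q hq0 hq1 hTH hFA
  obtain ⟨C1, c1, c1', s1, K1, hC1, hc1, hc1', hTH⟩ := hTH
  obtain ⟨C2, c2, c2', s2, K2, hC2, hc2, hc2', hFA⟩ := hFA
  -- constants
  set c3 : ℝ := min (1 / 41) (min c1 (c2 / 2)) with hc3
  have hc3p : 0 < c3 := lt_min (by norm_num) (lt_min hc1 (by positivity))
  have hc31 : c3 ≤ 1 / 41 := min_le_left _ _
  have hc32 : c3 ≤ c1 := (min_le_right _ _).trans (min_le_left _ _)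
  have hc33 : c3 ≤ c2 / 2 := (min_le_right _ _).trans (min_le_right _ _)
  set c4 : ℝ := min (1 / 2000) (min c1' (min c2' c2)) with hc4
  have hc4p : 0 < c4 := lt_min (by norm_num) (lt_min hc1' (lt_min hc2' hc2))
  have hc41 : c4 ≤ 1 / 2000 := min_le_left _ _
  have hc42 : c4 ≤ c1' := (min_le_right _ _).trans (min_le_left _ _)
  have hc43 : c4 ≤ c2' := (min_le_right _ _).trans ((min_le_right _ _).trans (min_le_left _ _))
  have hc44 : c4 ≤ c2 := (min_le_right _ _).trans ((min_le_right _ _).trans (min_le_right _ _))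
  set CC : ℝ := Real.exp 100 + (C1 + 2 * C2) * (Real.exp 2 + 2 + Real.exp (1 / (8 * c2))) with hCC
  have hCCp : 0 < CC := by positivity
  refine ⟨CC, c3, c4, s1 + s2 + 1, max K1 K2, hCCp, hc3p, hc4p, ?_⟩
  intro k hk j hj a h hka hak hhk
  have hk1 : K1 ≤ k := (le_max_left _ _).trans hk
  have hk2 : K2 ≤ k := (le_max_right _ _).trans hk
  -- small `h`
  rcases Nat.lt_or_ge h 100 with hh | hh
  · have htriv : ∀ S : Set Env, PE q S ≤ ENNReal.ofReal (CC * Real.exp (-(c3 * h))) := by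
      intro S
      refine le_trans prob_le_one ?_
      rw [show (1 : ℝ≥0∞) = ENNReal.ofReal 1 by simp]
      refine ENNReal.ofReal_le_ofReal ?_
      have e1 : c3 * h ≤ 100 := by
        have : (h : ℝ) ≤ 100 := by exact_mod_cast hh.le
        nlinarith only [hc4p, hc41, this, hc31]
      have e2 : 1 ≤ Real.exp 100 * Real.exp (-(c3 * h)) := by
        rw [← Real.exp_add]; exact Real.one_le_exp (by linarith)
      have e3 : Real.exp 100 ≤ CC := by
        rw [hCC]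
        have : 0 ≤ (C1 + 2 * C2) * (Real.exp 2 + 2 + Real.exp (1 / (8 * c2))) := by positivity
        linarith
      exact e2.trans (mul_le_mul_of_nonneg_right e3 (Real.exp_pos _).le)
    exact ⟨htriv _, htriv _, htriv _⟩
  -- large `h`
  have hhR : (100 : ℝ) ≤ h := by exact_mod_cast hh
  have hkaR : (k : ℝ) ≤ 30 * a := by exact_mod_cast hka
  have hk0 : (0 : ℝ) ≤ k := Nat.cast_nonneg k
  have hha : 66 * h ≤ a := by
    have e1 : (h : ℝ) ≤ 1 / 2000 * k := hhk.trans (mul_le_mul_of_nonneg_right hc41 hk0)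
    have e2 : (66 : ℝ) * h ≤ a := by linarith
    exact_mod_cast e2
  have hhkR : (h : ℝ) ≤ k := by
    have e1 : (h : ℝ) ≤ 1 / 2000 * k := hhk.trans (mul_le_mul_of_nonneg_right hc41 hk0)
    linarith
  have h4a : (4 : ℝ) ^ a / 4 ^ h = 4 ^ (a - h) := by
    rw [pow_sub₀ _ (by norm_num) (by omega), div_eq_mul_inv]
  have hMid : |j| ≤ 16 * 64 ^ (k - 1) := hj
  have h64a : (64 : ℤ) ^ a ≤ 64 ^ (k - 1) := pow_le_pow_right₀ (by norm_num) (by omega)
  have hexpk : ∀ c : ℝ, 0 < c → c3 ≤ c → Real.exp (-(c * k)) ≤ Real.exp (-(c3 * h)) := by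
    intro c hc hcc
    apply Real.exp_le_exp.2
    have : c3 * h ≤ c * k := mul_le_mul hcc hhkR (by positivity) hc.le
    linarith
  have hexp2 : ∀ c : ℝ, 0 < c → c3 ≤ c → Real.exp (-(c * 2 ^ (k - a))) ≤ Real.exp (-(c3 * h)) := by
    intro c hc hcc
    apply Real.exp_le_exp.2
    have e1 : (h : ℝ) ≤ 2 ^ (k - a) := by
      refine le_trans ?_ (nat_le_two_pow (k - a))
      exact_mod_cast (by omega : h ≤ k - a)
    have : c3 * h ≤ c * 2 ^ (k - a) := mul_le_mul hcc e1 (by positivity) hc.le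
    linarith
  set E : ℝ := Real.exp (-(c3 * h)) with hE
  have hEp : 0 < E := Real.exp_pos _
  -- far ties
  have hF : ∀ (b v : ℕ) (t : ℤ), k ≤ 35 * b → b + 2 * v + s2 ≤ k → (v : ℝ) ≤ c2' * k →
      |t| ≤ 19 * 64 ^ (k - 1) → (4 : ℝ) ^ (a - h) ≤ 4 ^ (b - 20 * v) / 4 →
      PE q {ω | ∃ γ, Near ω (oK k) (eK k) (4 ^ (a - h)) γ ∧ 16 ^ b ≤ |γ t - LK k ω t|} ≤
        ENNReal.ofReal (C2 * ((1 / 16) ^ v + Real.exp (-(c2 * 2 ^ (k - b))) +
          Real.exp (-(c2 * k)))) := by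
    intro b v t g1 g2 g3 g4 g5
    refine le_trans (measure_mono ?_) (hFA k b v t hk2 g1 g2 g3 g4)
    rintro ω ⟨γ, hγ, hγ2⟩
    exact ⟨γ, near_mono hγ g5, hγ2⟩
  -- disjoint ties
  have hD : ∀ p : ℤ, |p| ≤ 18 * 64 ^ (k - 1) →
      PE q {ω | ∃ γ, Near ω (oK k) (eK k) (4 ^ (a - h)) γ ∧
        ∀ t, p ≤ t → t ≤ p + 64 ^ a → γ t ≠ LK k ω t} ≤ ENNReal.ofReal (CC * E) := by
    intro p hp
    obtain ⟨u, hu⟩ : ∃ u : ℕ, u = (h - 7) / 41 := ⟨_, rfl⟩
    have hu1 : 41 * u + 7 ≤ h := by omega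
    have hu2 : h ≤ 41 * u + 47 := by omega
    have huR : (u : ℝ) ≤ h := by exact_mod_cast (by omega : u ≤ h)
    have hu2R : 2 * (u : ℝ) ≤ h := by exact_mod_cast (by omega : 2 * u ≤ h)
    have hsub : {ω | ∃ γ, Near ω (oK k) (eK k) (4 ^ (a - h)) γ ∧
        ∀ t, p ≤ t → t ≤ p + 64 ^ a → γ t ≠ LK k ω t} ⊆
        {ω | ∃ γ, Near ω (oK k) (eK k) (4 ^ (a - u - 1) / 1000) γ ∧
          (∀ t, p ≤ t → t ≤ p + 64 ^ a → γ t ≠ LK k ω t) ∧
          ∀ l : ℕ, l ≤ 64 ^ u →
            |γ (p + l * 64 ^ (a - u)) - LK k ω (p + l * 64 ^ (a - u))| ≤ 16 ^ (a - u - 1)} ∪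
        ⋃ l ∈ Finset.range (64 ^ u + 1), {ω | ∃ γ, Near ω (oK k) (eK k) (4 ^ (a - h)) γ ∧
          16 ^ (a - u - 1) ≤ |γ (p + (l : ℕ) * 64 ^ (a - u)) -
            LK k ω (p + (l : ℕ) * 64 ^ (a - u))|} := by
      rintro ω ⟨γ, hγ, hγ2⟩
      by_cases hall : ∀ l : ℕ, l ≤ 64 ^ u →
          |γ (p + l * 64 ^ (a - u)) - LK k ω (p + l * 64 ^ (a - u))| ≤ 16 ^ (a - u - 1)
      · left
        refine ⟨γ, near_mono hγ ?_, hγ2, hall⟩
        have e1 : (4 : ℝ) ^ (a - u - 1) = 4 ^ 5 * 4 ^ (a - u - 6) := by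
          rw [← pow_add]; congr 1; omega
        have e2 : (4 : ℝ) ^ (a - h) ≤ 4 ^ (a - u - 6) :=
          pow_le_pow_right₀ (by norm_num) (by omega)
        have e3 : (0 : ℝ) < 4 ^ (a - u - 6) := by positivity
        rw [e1, le_div_iff₀ (by norm_num)]
        nlinarith only [e2, e3]
      · right
        push Not at hall
        obtain ⟨l, hl, hl2⟩ := hall
        simp only [Set.mem_iUnion]
        exact ⟨l, Finset.mem_range.2 (by omega), γ, hγ, hl2.le⟩
    refine le_trans (measure_mono hsub) (le_trans (measure_union_le _ _) ?_)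
    have hT := hTH k a u p hk1 (by omega) (by omega)
      (huR.trans (hhk.trans (mul_le_mul_of_nonneg_right hc42 hk0))) hp
    have hB : PE q (⋃ l ∈ Finset.range (64 ^ u + 1),
        {ω | ∃ γ, Near ω (oK k) (eK k) (4 ^ (a - h)) γ ∧
          16 ^ (a - u - 1) ≤ |γ (p + (l : ℕ) * 64 ^ (a - u)) -
            LK k ω (p + (l : ℕ) * 64 ^ (a - u))|}) ≤
        ENNReal.ofReal ((64 ^ u + 1) * (C2 * ((1 / 16) ^ (2 * u) +
          Real.exp (-(c2 * 2 ^ (k - (a - u - 1)))) + Real.exp (-(c2 * k))))) := by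
      refine le_trans (measure_biUnion_finset_le _ _) ?_
      refine le_trans (Finset.sum_le_card_nsmul _ _ _ (fun l hl => hF (a - u - 1) (2 * u)
        (p + (l : ℕ) * 64 ^ (a - u)) (by omega) (by omega) ?_ ?_ ?_)) ?_
      · push_cast
        exact hu2R.trans (hhk.trans (mul_le_mul_of_nonneg_right hc43 hk0))
      · rw [Finset.mem_range] at hl
        have e1 : (l : ℤ) * 64 ^ (a - u) ≤ 64 ^ a := by
          have : (l : ℤ) ≤ 64 ^ u := by exact_mod_cast (by omega : l ≤ 64 ^ u)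
          calc (l : ℤ) * 64 ^ (a - u) ≤ 64 ^ u * 64 ^ (a - u) :=
                mul_le_mul_of_nonneg_right this (by positivity)
            _ = 64 ^ a := by rw [← pow_add]; congr 1; omega
        have e2 : 0 ≤ (l : ℤ) * 64 ^ (a - u) := by positivity
        rw [abs_le] at hp ⊢
        constructor <;> linarith only [hp.1, hp.2, hp, e2, h64a, e1]
      · rw [le_div_iff₀ (by norm_num), ← pow_succ]
        exact pow_le_pow_right₀ (by norm_num) (by omega)
      · have e1 : ENNReal.ofReal ((64 : ℝ) ^ u + 1) = ((64 ^ u + 1 : ℕ) : ℝ≥0∞) := by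
          rw [← ENNReal.ofReal_natCast]; push_cast; rfl
        have e2 : (0 : ℝ) ≤ 64 ^ u + 1 := by positivity
        rw [Finset.card_range, nsmul_eq_mul, ENNReal.ofReal_mul (p := (64 : ℝ) ^ u + 1) e2, e1]
    refine le_trans (add_le_add hT hB) ?_
    rw [← ENNReal.ofReal_add (by positivity) (by positivity)]
    refine ENNReal.ofReal_le_ofReal ?_
    -- real estimates
    have q1 : (1 / 4 : ℝ) ^ u ≤ Real.exp 2 * E := by
      refine (quarter_le u).trans ?_
      rw [hE, ← Real.exp_add]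
      apply Real.exp_le_exp.2
      have e1 : (h : ℝ) ≤ 41 * u + 47 := by exact_mod_cast hu2
      have e2 : c3 * h ≤ 1 / 41 * h := mul_le_mul_of_nonneg_right hc31 (by positivity)
      linarith
    have q2 : (1 / 64 : ℝ) ^ u ≤ Real.exp 2 * E :=
      (pow_le_pow_left₀ (by norm_num) (by norm_num) u).trans q1
    have q3 : (64 : ℝ) ^ u * (1 / 16) ^ (2 * u) = (1 / 4) ^ u := by
      rw [pow_mul, ← mul_pow]; norm_num
    have q4 : (64 : ℝ) ^ u * Real.exp (-(c2 * 2 ^ (k - (a - u - 1)))) ≤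
        Real.exp (1 / (8 * c2)) * E := by
      refine (mul_le_mul_of_nonneg_right (pow64_le u) (Real.exp_pos _).le).trans ?_
      rw [hE, ← Real.exp_add, ← Real.exp_add]
      apply Real.exp_le_exp.2
      set n : ℕ := k - (a - u - 1) with hn
      have e1 : 4 * h ≤ n := by omega
      have e1' : (4 : ℝ) * h ≤ n := by exact_mod_cast e1
      have e2 := two_pow_ge_sq n
      have e3 : 8 * (h : ℝ) ^ 2 ≤ 2 ^ n := by nlinarith only [e2, e1']
      have e4 : c2 * (8 * (h : ℝ) ^ 2) ≤ c2 * 2 ^ n := mul_le_mul_of_nonneg_left e3 hc2.le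
      have e5 : 2 * (h : ℝ) ≤ c2 * (8 * (h : ℝ) ^ 2) + 1 / (8 * c2) := by
        have : 0 ≤ (8 * c2 * h - 1) ^ 2 / (8 * c2) := by positivity
        have e6 : (8 * c2 * h - 1) ^ 2 / (8 * c2) =
            c2 * (8 * (h : ℝ) ^ 2) - 2 * h + 1 / (8 * c2) := by field_simp; ring
        linarith only [this, e6]
      have e7 : c3 * h ≤ 1 / 41 * h := mul_le_mul_of_nonneg_right hc31 (by positivity)
      have e8 : (41 : ℝ) * u + 7 ≤ h := by exact_mod_cast hu1
      linarith only [hc4p, hc41, hhR, e4, e5, e7, e8]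
    have q5 : (64 : ℝ) ^ u * Real.exp (-(c2 * k)) ≤ E := by
      refine (mul_le_mul_of_nonneg_right (pow64_le u) (Real.exp_pos _).le).trans ?_
      rw [hE, ← Real.exp_add]
      apply Real.exp_le_exp.2
      have e1 : (h : ℝ) ≤ c2 * k := hhk.trans (mul_le_mul_of_nonneg_right hc44 hk0)
      have e2 : c3 * h ≤ c2 / 2 * k := mul_le_mul hc33 hhkR (by positivity) (by positivity)
      have e8 : (41 : ℝ) * u + 7 ≤ h := by exact_mod_cast hu1
      linarith
    have q6 := hexp2 c1 hc1 hc32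
    have q7 := hexpk c1 hc1 hc32
    have q8 : (1 : ℝ) ≤ 64 ^ u := one_le_pow₀ (by norm_num)
    set X : ℝ := (1 / 16) ^ (2 * u) + Real.exp (-(c2 * 2 ^ (k - (a - u - 1)))) +
      Real.exp (-(c2 * k)) with hX
    have hX0 : 0 ≤ X := by positivity
    have q9 : (64 : ℝ) ^ u * X ≤ (Real.exp 2 + Real.exp (1 / (8 * c2)) + 1) * E := by
      rw [hX, mul_add, mul_add, q3]
      linarith only [q1, q4, q5]
    have q10 : (64 ^ u + 1) * (C2 * X) ≤
        2 * C2 * ((Real.exp 2 + Real.exp (1 / (8 * c2)) + 1) * E) := by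
      calc (64 ^ u + 1) * (C2 * X) ≤ (2 * 64 ^ u) * (C2 * X) :=
            mul_le_mul_of_nonneg_right (by linarith only [q8]) (by positivity)
        _ = 2 * C2 * (64 ^ u * X) := by ring
        _ ≤ _ := mul_le_mul_of_nonneg_left q9 (by positivity)
    have q11 : C1 * ((1 / 64) ^ u + Real.exp (-(c1 * 2 ^ (k - a))) + Real.exp (-(c1 * k))) ≤
        C1 * ((Real.exp 2 + 2) * E) := by
      refine mul_le_mul_of_nonneg_left ?_ hC1.le
      linarith only [q2, q6, q7]
    have q12 : 0 ≤ Real.exp 100 * E := by positivity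
    have q13 : 0 ≤ C1 * (Real.exp (1 / (8 * c2)) * E) := by positivity
    have q14 : 0 ≤ C2 * E := by positivity
    rw [hCC]
    nlinarith only [q10, q11, q12, q13, q14]
  refine ⟨?_, ?_, ?_⟩
  · rw [h4a]
    refine hD j (hMid.trans ?_)
    have : (0 : ℤ) ≤ 64 ^ (k - 1) := by positivity
    linarith
  · rw [h4a]
    have hp : |j - 64 ^ a| ≤ 18 * 64 ^ (k - 1) := by
      have e0 : (0 : ℤ) < 64 ^ a := by positivity
      rw [abs_le] at hMid ⊢
      constructor <;> linarith only [hMid.1, hMid.2, hMid, h64a, e0]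
    refine le_trans (measure_mono ?_) (hD (j - 64 ^ a) hp)
    rintro ω ⟨γ, hγ, hγ2⟩
    exact ⟨γ, hγ, fun t h1 h2 => hγ2 t h1 (by linarith)⟩
  · rw [h4a]
    obtain ⟨v, hv⟩ : ∃ v : ℕ, v = (h - 1) / 20 := ⟨_, rfl⟩
    have hv1 : 20 * v + 1 ≤ h := by omega
    have hv2 : h ≤ 20 * v + 20 := by omega
    have hvR : (v : ℝ) ≤ h := by exact_mod_cast (by omega : v ≤ h)
    refine le_trans (hF a v j (by omega) (by omega)
      (hvR.trans (hhk.trans (mul_le_mul_of_nonneg_right hc43 hk0))) (hMid.trans ?_) ?_) ?_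
    · have : (0 : ℤ) ≤ 64 ^ (k - 1) := by positivity
      linarith
    · rw [le_div_iff₀ (by norm_num), ← pow_succ]
      exact pow_le_pow_right₀ (by norm_num) (by omega)
    · refine ENNReal.ofReal_le_ofReal ?_
      have q1 : (1 / 16 : ℝ) ^ v ≤ Real.exp 2 * E := by
        refine (pow_le_pow_left₀ (by norm_num) (by norm_num : (1 / 16 : ℝ) ≤ 1 / 4) v).trans
          ((quarter_le v).trans ?_)
        rw [hE, ← Real.exp_add]
        apply Real.exp_le_exp.2
        have e1 : (h : ℝ) ≤ 20 * v + 20 := by exact_mod_cast hv2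
        have e2 : c3 * h ≤ 1 / 41 * h := mul_le_mul_of_nonneg_right hc31 (by positivity)
        linarith only [hc4p, hc41, hhR, e1, e2]
      have hc3c2 : c3 ≤ c2 := by linarith
      have q2 := hexp2 c2 hc2 hc3c2
      have q3 := hexpk c2 hc2 hc3c2
      have q4 : C2 * ((1 / 16) ^ v + Real.exp (-(c2 * 2 ^ (k - a))) + Real.exp (-(c2 * k))) ≤
          C2 * ((Real.exp 2 + 2) * E) := by
        refine mul_le_mul_of_nonneg_left ?_ hC2.le
        linarith
      have q5 : 0 ≤ Real.exp 100 * E := by positivity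
      have q6 : 0 ≤ C1 * ((Real.exp 2 + 2 + Real.exp (1 / (8 * c2))) * E) := by positivity
      have q7 : 0 ≤ C2 * (Real.exp (1 / (8 * c2)) * E) := by positivity
      have q8 : 0 ≤ C2 * ((Real.exp 2 + 2) * E) := by positivity
      rw [hCC]
      nlinarith only [q4, q5, q6, q7, q8]

end Pool.Agent.H4.NT
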