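import Pool.Agent.H84.NT.Targets5
import Pool.Agent.H4.ND.Common

/-!
# Near geodesics do not leave the strip
-/

open MeasureTheory ProbabilityTheory
open scoped ENNReal

namespace Pool.Agent.H4.NT

open Pool.Agent.H99.NS Pool.Agent.H22.LPP Pool.Agent.H95.INS Pool.Agent.H76.ND Pool.Agent.H95.ND
open Pool.Agent.H84.NT hiding lv two_lv
open Pool.Agent.H84.NT5
open Pool.Agent.H84.GL (D_LT len dsp)
open Pool.Agent.H4.ND (lv_real lv_two lv_pos lv_even)

theorem topn_det {q : ℝ} (hq0 : 0 < q) (hq1 : q < 1) {ω : Env} {K : ℕ} {D Y : ℝ} (hK : 1 ≤ K)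
    (hD : 1 ≤ D) (hY : 0 ≤ Y)
    (hE1 : ∀ u v : Site, -lv K ≤ u.1 → u.1 < v.1 → v.1 ≤ lv K → Reach u v →
      (dx (oK K) u = 0 ∨ dx (oK K) v = 0) → T ω u v < parS q (1 / 2) u v + Y * 4 ^ K)
    (hE2 : mu q * 64 ^ K - Y * 4 ^ K < T ω (oK K) (eK K))
    {g : ℤ → ℤ} (hg : Near ω (oK K) (eK K) (4 ^ K) g) {t : ℤ} (ht1 : -lv K ≤ t) (ht2 : t ≤ lv K)
    (hgt : D * 16 ^ K < |(g t : ℝ)|) : sg q * D ^ 2 < 3 * Y + 1 := by
  obtain ⟨hc, hw⟩ := hg
  have hlv := lv_real hK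
  have hlp := lv_pos K
  have hs := sg_pos hq0 hq1
  have h16 : (0 : ℝ) < 16 ^ K := by positivity
  have h4 : (0 : ℝ) < 4 ^ K := by positivity
  have h64 : (0 : ℝ) < 64 ^ K := by positivity
  have hX : 0 < |(g t : ℝ)| := lt_of_le_of_lt (by positivity) hgt
  have e1 : g (-lv K) = 0 := hc.2.1
  have e2 : g (lv K) = 0 := hc.2.2
  have ht1' : -lv K < t := by
    rcases lt_or_eq_of_le ht1 with h | h
    · exact h
    · exfalso; rw [← h, e1] at hX; simp at hX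
  have ht2' : t < lv K := by
    rcases lt_or_eq_of_le ht2 with h | h
    · exact h
    · exfalso; rw [h, e2] at hX; simp at hX
  have hcm1 : Conn (oK K) (t, g t) g := ⟨fun r h1 h2 => hc.1 r h1 (h2.trans ht2'), hc.2.1, rfl⟩
  have hcm2 : Conn (t, g t) (eK K) g :=
    ⟨fun r h1 h2 => hc.1 r (le_trans ht1 h1) h2, rfl, hc.2.2⟩
  have hr1 : Reach (oK K) (t, g t) := hcm1.reach ht1
  have hr2 : Reach (t, g t) (eK K) := hcm2.reach ht2
  have hT1 := hE1 (oK K) (t, g t) le_rfl ht1' ht2 hr1 (Or.inl (by unfold dx; simp))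
  have hT2 := hE1 (t, g t) (eK K) ht1 ht2' le_rfl hr2 (Or.inr (by unfold dx; simp [oK, eK]))
  have hw1 : wt ω (-lv K) t g ≤ T ω (oK K) (t, g t) :=
    le_T (u := oK K) (v := (t, g t)) (γ := g) ω ht1 hcm1
  have hw2 : wt ω t (lv K) g ≤ T ω (t, g t) (eK K) :=
    le_T (u := (t, g t)) (v := eK K) (γ := g) ω ht2 hcm2
  have hwa : wt ω (-lv K) (lv K) g = wt ω (-lv K) t g + wt ω t (lv K) g := wt_add ω ht1 ht2 g
  have hw' : T ω (oK K) (eK K) - 4 ^ K ≤ wt ω (-lv K) (lv K) g := hw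
  set t1 : ℝ := ((t - -lv K : ℤ) : ℝ) with ht1d
  set t2 : ℝ := ((lv K - t : ℤ) : ℝ) with ht2d
  have p1 : 0 < t1 := by rw [ht1d]; exact_mod_cast (by linarith : (0 : ℤ) < t - -lv K)
  have p2 : 0 < t2 := by rw [ht2d]; exact_mod_cast (by linarith : (0 : ℤ) < lv K - t)
  have p12 : t1 + t2 = 64 ^ K := by
    rw [ht1d, ht2d]; push_cast; linarith
  have f1 : parS q (1 / 2) (oK K) (t, g t) = mu q * t1 - sg q / 4 * (g t : ℝ) ^ 2 / t1 := by
    unfold parS dt dx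
    simp only [oK]
    rw [← ht1d]
    push_cast
    ring
  have f2 : parS q (1 / 2) (t, g t) (eK K) = mu q * t2 - sg q / 4 * (g t : ℝ) ^ 2 / t2 := by
    unfold parS dt dx
    simp only [eK]
    rw [← ht2d]
    push_cast
    ring
  rw [f1] at hT1
  rw [f2] at hT2
  have hsq : (D * 16 ^ K) ^ 2 < (g t : ℝ) ^ 2 := by
    rw [← sq_abs (g t : ℝ)]
    exact pow_lt_pow_left₀ hgt (by positivity) (by norm_num)
  have hinv : (g t : ℝ) ^ 2 * (4 / 64 ^ K) ≤ (g t : ℝ) ^ 2 / t1 + (g t : ℝ) ^ 2 / t2 := by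
    have : (4 : ℝ) / 64 ^ K ≤ 1 / t1 + 1 / t2 := by
      rw [← p12, div_add_div _ _ p1.ne' p2.ne', div_le_div_iff₀ (by positivity) (by positivity)]
      nlinarith [sq_nonneg (t1 - t2)]
    calc (g t : ℝ) ^ 2 * (4 / 64 ^ K) ≤ (g t : ℝ) ^ 2 * (1 / t1 + 1 / t2) :=
          mul_le_mul_of_nonneg_left this (sq_nonneg _)
      _ = _ := by ring
  have h256 : ((16 : ℝ) ^ K) ^ 2 = 64 ^ K * 4 ^ K := by
    rw [← mul_pow, ← pow_mul, mul_comm K 2, pow_mul]; norm_num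
  have hmain : D ^ 2 * 4 ^ K * 4 ≤ (g t : ℝ) ^ 2 * (4 / 64 ^ K) := by
    have h1 : D ^ 2 * 4 ^ K * 64 ^ K ≤ (g t : ℝ) ^ 2 := by
      have : (D * 16 ^ K) ^ 2 = D ^ 2 * 4 ^ K * 64 ^ K := by rw [mul_pow, h256]; ring
      linarith
    calc D ^ 2 * 4 ^ K * 4 = D ^ 2 * 4 ^ K * 64 ^ K * (4 / 64 ^ K) := by field_simp
      _ ≤ (g t : ℝ) ^ 2 * (4 / 64 ^ K) := mul_le_mul_of_nonneg_right h1 (by positivity)
  have hfin : sg q * D ^ 2 * 4 ^ K < (3 * Y + 1) * 4 ^ K := by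
    have a1 : mu q * t1 + mu q * t2 = mu q * 64 ^ K := by rw [← mul_add, p12]
    have a2 : sg q / 4 * (D ^ 2 * 4 ^ K * 4) ≤
        sg q / 4 * ((g t : ℝ) ^ 2 / t1 + (g t : ℝ) ^ 2 / t2) :=
      mul_le_mul_of_nonneg_left (hmain.trans hinv) (by positivity)
    have a3 : sg q / 4 * ((g t : ℝ) ^ 2 / t1 + (g t : ℝ) ^ 2 / t2) =
        sg q / 4 * (g t : ℝ) ^ 2 / t1 + sg q / 4 * (g t : ℝ) ^ 2 / t2 := by ring
    linarith
  exact lt_of_mul_lt_mul_right hfin h4.le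

theorem pf_TOPN : T_TOPN := by
  intro hSUP hLT q hq0 hq1
  obtain ⟨C1, c1, hC1, hc1, h1⟩ := hSUP q hq0 hq1 (1 / 2) (by norm_num) (by norm_num)
  obtain ⟨A, c2, hA, hc2, h2⟩ := hLT q hq0 hq1
  have hs := sg_pos hq0 hq1
  set m : ℝ := min c1 c2 with hm
  have hm0 : 0 < m := lt_min hc1 hc2
  have hm1 : m ≤ c1 := min_le_left _ _
  have hm2 : m ≤ c2 := min_le_right _ _
  refine ⟨(C1 + 1) * Real.exp (c1 / 3) + A * Real.exp (c2 + c2 / 3), m * sg q / 3, by positivity,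
    by positivity, ?_⟩
  intro K D hK hD
  have hD2 : D ≤ D ^ 2 := by nlinarith
  by_cases hcase : sg q * D ^ 2 < 1
  · refine le_trans prob_le_one ?_
    rw [show (1 : ℝ≥0∞) = ENNReal.ofReal 1 by simp]
    refine ENNReal.ofReal_le_ofReal ?_
    have b1 : sg q * D ≤ 1 := by nlinarith
    have b2 : m * sg q / 3 * D ≤ c1 / 3 := by
      have : m * (sg q * D) ≤ c1 * 1 := mul_le_mul hm1 b1 (by positivity) hc1.le
      linarith
    have b3 : 1 ≤ Real.exp (c1 / 3) * Real.exp (-(m * sg q / 3 * D)) := by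
      rw [← Real.exp_add]
      exact Real.one_le_exp (by linarith)
    have b4 : 0 ≤ A * Real.exp (c2 + c2 / 3) * Real.exp (-(m * sg q / 3 * D)) := by positivity
    have b5 : 0 ≤ C1 * Real.exp (c1 / 3) * Real.exp (-(m * sg q / 3 * D)) := by positivity
    nlinarith
  push Not at hcase
  set Y : ℝ := (sg q * D ^ 2 - 1) / 3 with hYd
  have hY : 0 ≤ Y := by rw [hYd]; linarith
  have hlv := lv_real hK
  have hL : ((64 ^ K : ℕ) : ℝ) = 64 ^ K := by push_cast; rfl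
  have h13 : ((64 ^ K : ℕ) : ℝ) ^ (1 / 3 : ℝ) = 4 ^ K := by
    rw [hL, ← Real.rpow_natCast, ← Real.rpow_mul (by norm_num), mul_comm, Real.rpow_mul (by norm_num),
      show (64 : ℝ) ^ (1 / 3 : ℝ) = 4 by
        rw [show (64 : ℝ) = 4 ^ (3 : ℝ) by norm_num, ← Real.rpow_mul (by norm_num)]; norm_num,
      Real.rpow_natCast]
  have hlen : len (oK K) (eK K) = 64 ^ K := by
    unfold len; simp only [oK, eK]; push_cast; linarith
  have h13' : (len (oK K) (eK K)) ^ ((1 : ℝ) / 3) = 4 ^ K := by rw [hlen, ← hL]; exact h13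
  have hE1 := h1 (64 ^ K) (Nat.one_le_pow _ _ (by norm_num)) (oK K) Y hY
  have hpar : par q (oK K) (eK K) = mu q * 64 ^ K := by
    unfold par
    have e : ((eK K).2 - (oK K).2 : ℤ) = 0 := by simp [oK, eK]
    have e' : (((eK K).1 - (oK K).1 : ℤ) : ℝ) = 64 ^ K := hlen
    rw [e, e']; simp
  have hE2 := h2 (oK K) (eK K) (by
      refine ⟨?_, ?_⟩
      · simp only [oK, eK]; have := lv_pos K; rw [sub_self, abs_zero]; linarith
      · simp only [oK, eK]; exact ⟨lv K, by ring⟩) (by simp only [oK, eK]; have := lv_pos K; linarith)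
    (by
      have e : dsp (oK K) (eK K) = 0 := by unfold dsp; simp [oK, eK]
      rw [e, hlen, abs_zero]; positivity) Y hY
  rw [h13', hpar] at hE2
  have hsub : {ω | ¬ TOPk D K ω} ⊆
      {ω | ∃ u v : Site, (oK K).1 ≤ u.1 ∧ u.1 < v.1 ∧ v.1 ≤ (oK K).1 + (64 ^ K : ℕ) ∧ Reach u v ∧
        (|dx (oK K) u| ≤ ((64 ^ K : ℕ) : ℝ) ^ (2 / 3 : ℝ) ∨
          |dx (oK K) v| ≤ ((64 ^ K : ℕ) : ℝ) ^ (2 / 3 : ℝ)) ∧
        parS q (1 / 2) u v + Y * ((64 ^ K : ℕ) : ℝ) ^ (1 / 3 : ℝ) ≤ T ω u v} ∪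
      {ω | T ω (oK K) (eK K) ≤ mu q * 64 ^ K - Y * 4 ^ K} := by
    intro ω hω
    by_contra hn
    rw [Set.mem_union, not_or] at hn
    obtain ⟨hn1, hn2⟩ := hn
    simp only [Set.mem_ofPred_eq] at hn1 hn2 hω
    push Not at hn2
    apply hω
    intro g hg t ht1 ht2
    by_contra hgt
    push Not at hgt
    have hfin := topn_det hq0 hq1 (Y := Y) hK hD hY ?_ hn2 hg ht1 ht2 hgt
    · rw [hYd] at hfin; linarith
    · intro u v hu huv hv hr hd
      by_contra hT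
      push Not at hT
      apply hn1
      refine ⟨u, v, hu, huv, ?_, hr, ?_, ?_⟩
      · have := lv_two hK
        simp only [oK]
        push_cast
        linarith
      · rcases hd with hd | hd
        · left; rw [hd, abs_zero]; positivity
        · right; rw [hd, abs_zero]; positivity
      · rw [h13]; exact hT
  refine le_trans (measure_mono hsub) (le_trans (measure_union_le _ _) ?_)
  have hP1 : ∀ S : Set Env, (PE q) S = ENNReal.ofReal ((PE q).real S) := fun S => by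
    rw [Measure.real, ENNReal.ofReal_toReal (measure_ne_top _ _)]
  rw [hP1 {ω | ∃ u v : Site, _}]
  refine le_trans (add_le_add (ENNReal.ofReal_le_ofReal hE1) hE2) ?_
  rw [← ENNReal.ofReal_add (by positivity) (by positivity)]
  refine ENNReal.ofReal_le_ofReal ?_
  -- real estimate
  have hYD : (sg q * D - 1) / 3 ≤ Y := by
    rw [hYd]
    have : sg q * D ≤ sg q * D ^ 2 := mul_le_mul_of_nonneg_left hD2 hs.le
    linarith
  have r1 : Real.exp (-c1 * Y) ≤ Real.exp (c1 / 3) * Real.exp (-(m * sg q / 3 * D)) := by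
    rw [← Real.exp_add]
    apply Real.exp_le_exp.2
    have : m * (sg q * D) ≤ c1 * (sg q * D) := mul_le_mul_of_nonneg_right hm1 (by positivity)
    nlinarith
  have hY32 : Y - 1 ≤ Y ^ ((3 : ℝ) / 2) := by
    rcases le_total 1 Y with h | h
    · have : Y ^ (1 : ℝ) ≤ Y ^ ((3 : ℝ) / 2) := Real.rpow_le_rpow_of_exponent_le h (by norm_num)
      rw [Real.rpow_one] at this
      linarith
    · have : 0 ≤ Y ^ ((3 : ℝ) / 2) := Real.rpow_nonneg hY _
      linarith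
  have r2 : Real.exp (-(c2 * Y ^ ((3 : ℝ) / 2))) ≤
      Real.exp (c2 + c2 / 3) * Real.exp (-(m * sg q / 3 * D)) := by
    rw [← Real.exp_add]
    apply Real.exp_le_exp.2
    have h3 : m * (sg q * D) ≤ c2 * (sg q * D) := mul_le_mul_of_nonneg_right hm2 (by positivity)
    have h4 : c2 * (Y - 1) ≤ c2 * Y ^ ((3 : ℝ) / 2) := mul_le_mul_of_nonneg_left hY32 hc2.le
    have h5 : c2 * ((sg q * D - 1) / 3) ≤ c2 * Y := mul_le_mul_of_nonneg_left hYD hc2.le
    nlinarith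
  have r3 := mul_le_mul_of_nonneg_left r1 hC1.le
  have r4 := mul_le_mul_of_nonneg_left r2 hA.le
  have r5 : 0 ≤ Real.exp (c1 / 3) * Real.exp (-(m * sg q / 3 * D)) := by positivity
  nlinarith

end Pool.Agent.H4.NT
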